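import Mathlib
import Pool.Agent.Lib.helper21.FinSylow

namespace Pool.Agent.Results.MP_055c61_al.InterSylow

theorem result (p : ℕ) [Fact p.Prime] (Ω : Type*) (G : Subgroup (Equiv.Perm Ω))
    (hfin : ∀ g ∈ G, {x : Ω | g x ≠ x}.Finite) (N : Subgroup G) [N.Normal] (S : Sylow p G)
    (htr : ∀ x y : Ω, ∃ s ∈ (S : Subgroup G), (s : Equiv.Perm Ω) x = y) :
    ∃ P : Sylow p N, (P : Subgroup N) = (S : Subgroup G).subgroupOf N :=
  ⟨⟨(S : Subgroup G).subgroupOf N, S.isPGroup'.comap_subtype, fun hR hle =>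
    Pool.Agent.Lib.Helper21.FinSylow.inter_sylow (Ω := Ω) (fun g => hfin g.1 g.2) S htr N _ hR
      hle⟩, rfl⟩

end Pool.Agent.Results.MP_055c61_al.InterSylow
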