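import Mathlib
import Pool.Agent.Lib.helper21.FinSylow

namespace Pool.Agent.Results.MP_055c61_al.QuotSylow

theorem result (p : ℕ) [Fact p.Prime] (Ω : Type*) (G : Subgroup (Equiv.Perm Ω))
    (hfin : ∀ g ∈ G, {x : Ω | g x ≠ x}.Finite) (N : Subgroup G) [N.Normal] (S : Sylow p G)
    (htr : ∀ x y : Ω, ∃ s ∈ (S : Subgroup G), (s : Equiv.Perm Ω) x = y) :
    ∃ Q : Sylow p (G ⧸ N),
      (Q : Subgroup (G ⧸ N)) = (S : Subgroup G).map (QuotientGroup.mk' N) :=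
  ⟨⟨(S : Subgroup G).map (QuotientGroup.mk' N), S.isPGroup'.map _, fun hR hle =>
    Pool.Agent.Lib.Helper21.FinSylow.quot_sylow (Ω := Ω) (fun g => hfin g.1 g.2) S htr N _ hR
      hle⟩, rfl⟩

end Pool.Agent.Results.MP_055c61_al.QuotSylow
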